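import Pool.Agent.W46.KK.Kak
import Pool.Agent.TH539.StrProjMain

/-!
# Lines whose positions at given times lie in additively structured sets: core estimate
-/

set_option autoImplicit false

open Finset
open scoped Pointwise

namespace Pool.Agent.H668.Str
open Pool.Agent.W46.KK Pool.Agent.TH539.StrProj
open Pool.Agent.H217R3.AK (proj projInf)

/-- The cells of the grid of step `δ` which meet `D`. -/
def cells {d : ℕ} (δ : ℝ) (D : Set (Fin d → ℝ)) : Set (Fin d → ℤ) := fl δ '' D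

/-- `E` is covered by at most `L` bounded sets `D` with `N(D + D) ≤ M N(D)` and
`N(D) ≤ M N(E)`; here `N` is the number of cells of the grid of step `δ` that a set meets. -/
def StrSet {d : ℕ} (δ L M : ℝ) (E : Set (Fin d → ℝ)) : Prop :=
  ∃ 𝒟 : Finset (Set (Fin d → ℝ)), (𝒟.card : ℝ) ≤ L ∧ (E ⊆ ⋃ D ∈ 𝒟, D) ∧
    ∀ D ∈ 𝒟, Bornology.IsBounded D ∧
      ((cells δ (D + D)).ncard : ℝ) ≤ M * (cells δ D).ncard ∧
      ((cells δ D).ncard : ℝ) ≤ M * (cells δ E).ncard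

theorem cells_finite {d : ℕ} {δ : ℝ} (hδ : 0 < δ) {D : Set (Fin d → ℝ)}
    (hD : Bornology.IsBounded D) : (cells δ D).Finite := by
  obtain ⟨R, hR⟩ := hD.subset_closedBall 0
  refine Set.Finite.subset (s := Set.pi Set.univ fun _ : Fin d => Set.Icc (-⌈R / δ⌉ - 1) (⌈R / δ⌉ + 1))
    (Set.Finite.pi fun _ => Set.finite_Icc _ _) ?_
  rintro z ⟨x, hx, rfl⟩
  rw [Set.mem_pi]
  intro i _
  have h1 := hR hx
  rw [mem_closedBall_zero_iff] at h1
  have h2 : |x i| ≤ R := (norm_le_pi_norm x i).trans h1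
  rw [abs_le] at h2
  have h3 : x i / δ ≤ R / δ := div_le_div_of_nonneg_right h2.2 hδ.le
  have h4 : -(R / δ) ≤ x i / δ := by
    rw [← neg_div]; exact div_le_div_of_nonneg_right h2.1 hδ.le
  have h5 := Int.le_ceil (R / δ)
  have h6 := Int.floor_le (x i / δ)
  have h7 := Int.lt_floor_add_one (x i / δ)
  rw [Set.mem_Icc]
  unfold fl
  constructor
  · have : (-(⌈R / δ⌉ : ℝ) - 1) < ⌊x i / δ⌋ := by linarith
    have h8 : ((-⌈R / δ⌉ - 1 : ℤ) : ℝ) < ((⌊x i / δ⌋ : ℤ) : ℝ) := by push_cast; linarith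
    exact (by exact_mod_cast h8.le)
  · have h8 : ((⌊x i / δ⌋ : ℤ) : ℝ) ≤ ((⌈R / δ⌉ + 1 : ℤ) : ℝ) := by push_cast; linarith
    exact_mod_cast h8

/-- the cells as a finset -/
noncomputable def dc {d : ℕ} (δ : ℝ) (D : Set (Fin d → ℝ)) : Finset (Fin d → ℤ) := by
  classical
  exact if h : (cells δ D).Finite then h.toFinset else ∅

theorem mem_dc {d : ℕ} {δ : ℝ} (hδ : 0 < δ) {D : Set (Fin d → ℝ)} (hD : Bornology.IsBounded D)
    (z : Fin d → ℤ) : z ∈ dc δ D ↔ z ∈ cells δ D := by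
  unfold dc
  rw [dif_pos (cells_finite hδ hD), Set.Finite.mem_toFinset]

theorem card_dc {d : ℕ} {δ : ℝ} (hδ : 0 < δ) {D : Set (Fin d → ℝ)} (hD : Bornology.IsBounded D) :
    (dc δ D).card = (cells δ D).ncard := by
  unfold dc
  rw [dif_pos (cells_finite hδ hD), Set.ncard_eq_toFinset_card _ (cells_finite hδ hD)]

/-- the box of offsets -/
noncomputable def box (d : ℕ) (o : ℤ) : Finset (Fin d → ℤ) := Fintype.piFinset fun _ => Finset.Icc (-o) o

theorem card_box (d : ℕ) {o : ℤ} (ho : 0 ≤ o) : ((box d o).card : ℝ) = ((2 * o + 1 : ℤ) : ℝ) ^ d := by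
  rw [box, Fintype.card_piFinset, Finset.prod_const, Finset.card_univ, Fintype.card_fin,
    Int.card_Icc]
  push_cast
  congr 1
  have h0 : 0 ≤ o + 1 - -o := by omega
  have h1 : (((o + 1 - -o).toNat : ℤ) : ℝ) = ((o + 1 - -o : ℤ) : ℝ) := by
    rw [Int.toNat_of_nonneg h0]
  rw [Int.cast_natCast] at h1
  rw [h1]
  push_cast
  ring

theorem box_zero_mem (d : ℕ) {o : ℤ} (ho : 0 ≤ o) : (0 : Fin d → ℤ) ∈ box d o := by
  rw [box, Fintype.mem_piFinset]
  intro i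
  rw [Finset.mem_Icc]
  constructor
  · simpa using ho
  · simpa using ho

/-- sums of two cells -/
theorem dc_add {d : ℕ} {δ : ℝ} (hδ : 0 < δ) {D : Set (Fin d → ℝ)} (hD : Bornology.IsBounded D) :
    ((dc δ D + dc δ D).card : ℝ) ≤ 2 ^ d * ((cells δ (D + D)).ncard : ℝ) := by
  classical
  have hDD : Bornology.IsBounded (D + D) := hD.add hD
  have hsub : dc δ D + dc δ D ⊆ ((dc δ (D + D)) ×ˢ (Fintype.piFinset fun _ : Fin d =>
      Finset.Icc (0 : ℤ) 1)).image fun q => q.1 - q.2 := by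
    intro z hz
    rw [Finset.mem_add] at hz
    obtain ⟨a, ha, b, hb, rfl⟩ := hz
    rw [mem_dc hδ hD] at ha hb
    obtain ⟨x, hx, rfl⟩ := ha
    obtain ⟨y, hy, rfl⟩ := hb
    rw [Finset.mem_image]
    refine ⟨(fl δ (x + y), fl δ (x + y) - (fl δ x + fl δ y)), ?_, by simp⟩
    rw [Finset.mem_product]
    refine ⟨?_, ?_⟩
    · rw [mem_dc hδ hDD]
      exact ⟨x + y, Set.add_mem_add hx hy, rfl⟩
    · rw [Fintype.mem_piFinset]
      intro i
      simp only [Pi.sub_apply, Pi.add_apply, fl, Finset.mem_Icc]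
      have e : (x i + y i) / δ = x i / δ + y i / δ := add_div _ _ _
      rw [e]
      have h1 := Int.le_floor_add (x i / δ) (y i / δ)
      have h2 := Int.le_floor_add_floor (x i / δ) (y i / δ)
      constructor <;> omega
  have h1 : ((Fintype.piFinset fun _ : Fin d => Finset.Icc (0 : ℤ) 1).card : ℝ) = 2 ^ d := by
    rw [Fintype.card_piFinset, Finset.prod_const, Finset.card_univ, Fintype.card_fin]
    simp
  have h2 := (Finset.card_le_card hsub).trans Finset.card_image_le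
  calc ((dc δ D + dc δ D).card : ℝ)
      ≤ (((dc δ (D + D)) ×ˢ (Fintype.piFinset fun _ : Fin d => Finset.Icc (0 : ℤ) 1)).card : ℝ) :=
        Nat.cast_le.2 h2
    _ = _ := by rw [Finset.card_product, Nat.cast_mul, h1, card_dc hδ hDD, mul_comm]

/-- the set of the points `a c + o` -/
noncomputable def ww {d : ℕ} (δ : ℝ) (a o : ℤ) (D : Set (Fin d → ℝ)) : Finset (Fin d → ℤ) :=
  (dc δ D ×ˢ box d o).image fun q => a • q.1 + q.2

theorem ww_card_le {d : ℕ} {δ : ℝ} (a : ℤ) {o : ℤ} (ho : 0 ≤ o) (D : Set (Fin d → ℝ)) :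
    ((ww δ a o D).card : ℝ) ≤ ((2 * o + 1 : ℤ) : ℝ) ^ d * ((dc δ D).card : ℝ) := by
  calc ((ww δ a o D).card : ℝ) ≤ ((dc δ D ×ˢ box d o).card : ℝ) := by
        exact_mod_cast Finset.card_image_le
    _ = _ := by rw [Finset.card_product, Nat.cast_mul, card_box d ho, mul_comm]

theorem le_ww_card {d : ℕ} {δ : ℝ} {a : ℤ} (ha : a ≠ 0) {o : ℤ} (ho : 0 ≤ o)
    (D : Set (Fin d → ℝ)) : (dc δ D).card ≤ (ww δ a o D).card := by
  refine Finset.card_le_card_of_injOn (fun c => a • c) ?_ ?_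
  · intro c hc
    refine Finset.mem_coe.2 (Finset.mem_image.2 ⟨(c, 0), ?_, by simp⟩)
    rw [Finset.mem_product]
    exact ⟨hc, box_zero_mem d ho⟩
  · intro c _ c' _ h
    funext i
    have := congrFun h i
    simp only [Pi.smul_apply, smul_eq_mul] at this
    exact mul_left_cancel₀ ha this

theorem ww_add {d : ℕ} {δ : ℝ} (hδ : 0 < δ) (a : ℤ) {o : ℤ} (ho : 0 ≤ o) {D : Set (Fin d → ℝ)}
    (hD : Bornology.IsBounded D) :
    ((ww δ a o D + ww δ a o D).card : ℝ) ≤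
      ((4 * o + 1 : ℤ) : ℝ) ^ d * 2 ^ d * ((cells δ (D + D)).ncard : ℝ) := by
  classical
  have hsub : ww δ a o D + ww δ a o D ⊆
      ((dc δ D + dc δ D) ×ˢ box d (2 * o)).image fun q => a • q.1 + q.2 := by
    intro z hz
    rw [Finset.mem_add] at hz
    obtain ⟨u, hu, w, hw, rfl⟩ := hz
    obtain ⟨⟨c, e⟩, hc, rfl⟩ := Finset.mem_image.1 hu
    obtain ⟨⟨c', e'⟩, hc', rfl⟩ := Finset.mem_image.1 hw
    rw [Finset.mem_product] at hc hc'
    refine Finset.mem_image.2 ⟨(c + c', e + e'), ?_, ?_⟩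
    · rw [Finset.mem_product]
      refine ⟨Finset.add_mem_add hc.1 hc'.1, ?_⟩
      have h1 := hc.2
      have h2 := hc'.2
      rw [box, Fintype.mem_piFinset] at h1 h2 ⊢
      intro i
      have h3 := Finset.mem_Icc.1 (h1 i)
      have h4 := Finset.mem_Icc.1 (h2 i)
      dsimp only at h3 h4 ⊢
      rw [Finset.mem_Icc, Pi.add_apply]
      constructor <;> linarith [h3.1, h3.2, h4.1, h4.2]
    · dsimp only
      rw [smul_add]
      abel
  have h1 : ((box d (2 * o)).card : ℝ) = ((4 * o + 1 : ℤ) : ℝ) ^ d := by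
    rw [card_box d (by omega)]
    congr 1
    push_cast
    ring
  have h2 := (Finset.card_le_card hsub).trans Finset.card_image_le
  calc ((ww δ a o D + ww δ a o D).card : ℝ)
      ≤ (((dc δ D + dc δ D) ×ˢ box d (2 * o)).card : ℝ) := Nat.cast_le.2 h2
    _ = ((4 * o + 1 : ℤ) : ℝ) ^ d * ((dc δ D + dc δ D).card : ℝ) := by
        rw [Finset.card_product, Nat.cast_mul, h1, mul_comm]
    _ ≤ ((4 * o + 1 : ℤ) : ℝ) ^ d * (2 ^ d * ((cells δ (D + D)).ncard : ℝ)) := by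
        apply mul_le_mul_of_nonneg_left (dc_add hδ hD)
        have : (0 : ℝ) ≤ ((4 * o + 1 : ℤ) : ℝ) := by exact_mod_cast (by omega : (0 : ℤ) ≤ 4 * o + 1)
        positivity
    _ = _ := by ring

/-- Images of a finite set of integer vectors under an additive map which is injective on it. -/
theorem img {d : ℕ} (φ : (Fin d → ℤ) → ℤ) (hφ : ∀ z w, φ (z + w) = φ z + φ w)
    (W : Finset (Fin d → ℤ)) (hinj : ∀ z ∈ W, ∀ w ∈ W, φ z = φ w → z = w) {c : ℚ} (hc : c ≠ 0) :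
    (W.image (fun z => (φ z : ℚ) / c)).card = W.card ∧
    (W.image (fun z => (φ z : ℚ) / c) + W.image (fun z => (φ z : ℚ) / c)).card ≤ (W + W).card := by
  classical
  constructor
  · apply Finset.card_image_of_injOn
    intro z hz w hw h
    have h1 : (φ z : ℚ) = φ w := by
      have h2 : (φ z : ℚ) / c = (φ w : ℚ) / c := h
      rwa [div_left_inj' hc] at h2
    exact hinj z hz w hw (by exact_mod_cast h1)
  · refine le_trans (Finset.card_le_card (t := (W + W).image (fun z => (φ z : ℚ) / c)) ?_)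
      Finset.card_image_le
    intro q hq
    rw [Finset.mem_add] at hq
    obtain ⟨a, ha, b, hb, rfl⟩ := hq
    obtain ⟨z, hz, rfl⟩ := Finset.mem_image.1 ha
    obtain ⟨w, hw, rfl⟩ := Finset.mem_image.1 hb
    refine Finset.mem_image.2 ⟨z + w, Finset.add_mem_add hz hw, ?_⟩
    rw [hφ]
    push_cast
    rw [add_div]

/-- covers of a set of points by few sets with small doubling and bounded size -/
def Cov {d : ℕ} (δ K L B : ℝ) (P : Set (Fin d → ℝ)) : Prop :=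
  ∃ 𝒟 : Finset (Set (Fin d → ℝ)), (𝒟.card : ℝ) ≤ L ∧ (P ⊆ ⋃ D ∈ 𝒟, D) ∧
    ∀ D ∈ 𝒟, Bornology.IsBounded D ∧
      ((cells δ (D + D)).ncard : ℝ) ≤ K * (cells δ D).ncard ∧
      ((cells δ D).ncard : ℝ) ≤ B

/-- the constant for one slope -/
noncomputable def cst (d : ℕ) (o : ℤ) : ℝ := ((4 * o + 1 : ℤ) : ℝ) ^ d * 2 ^ d

theorem le_cst (d : ℕ) {o : ℤ} (ho : 0 ≤ o) : ((2 * o + 1 : ℤ) : ℝ) ^ d ≤ cst d o := by
  have h0 : (0 : ℝ) ≤ ((2 * o + 1 : ℤ) : ℝ) := by exact_mod_cast (by omega : (0 : ℤ) ≤ 2 * o + 1)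
  have h1 : ((2 * o + 1 : ℤ) : ℝ) ≤ ((4 * o + 1 : ℤ) : ℝ) := by
    exact_mod_cast (by omega : 2 * o + 1 ≤ 4 * o + 1)
  have h2 := pow_le_pow_left₀ h0 h1 d
  have h3 : (1 : ℝ) ≤ 2 ^ d := one_le_pow₀ (by norm_num)
  have h4 : (0 : ℝ) ≤ ((4 * o + 1 : ℤ) : ℝ) ^ d := pow_nonneg (h0.trans h1) d
  unfold cst
  nlinarith

theorem cst_nonneg (d : ℕ) {o : ℤ} (ho : 0 ≤ o) : 0 ≤ cst d o := by
  have h0 : (0 : ℝ) ≤ ((2 * o + 1 : ℤ) : ℝ) := by exact_mod_cast (by omega : (0 : ℤ) ≤ 2 * o + 1)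
  exact le_trans (pow_nonneg h0 d) (le_cst d ho)

/-- transfer of a structured cover to the integers -/
theorem str_of_cov {d : ℕ} {δ : ℝ} (hδ : 0 < δ) {K L B C : ℝ} {a o : ℤ} (ha : a ≠ 0)
    (ho : 0 ≤ o) (hC : cst d o ≤ C) (hK : 0 ≤ K)
    (𝒟 : Finset (Set (Fin d → ℝ))) (hcard : (𝒟.card : ℝ) ≤ L)
    (h𝒟 : ∀ D ∈ 𝒟, Bornology.IsBounded D ∧
      ((cells δ (D + D)).ncard : ℝ) ≤ K * (cells δ D).ncard ∧
      ((cells δ D).ncard : ℝ) ≤ B)
    (φ : (Fin d → ℤ) → ℤ) (hφ : ∀ z w, φ (z + w) = φ z + φ w)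
    (hinj : ∀ D ∈ 𝒟, ∀ z ∈ ww δ a o D, ∀ w ∈ ww δ a o D, φ z = φ w → z = w)
    {c : ℚ} (hc : c ≠ 0) (P : Finset ℚ)
    (hP : ∀ q ∈ P, ∃ D ∈ 𝒟, ∃ z ∈ ww δ a o D, q = (φ z : ℚ) / c) :
    Structured (C * K) L (C * B) P := by
  classical
  refine ⟨𝒟.image fun D => (ww δ a o D).image fun z => (φ z : ℚ) / c, ?_, ?_, ?_⟩
  · refine le_trans ?_ hcard
    exact_mod_cast Finset.card_image_le
  · intro D' hD'
    obtain ⟨D, hD, rfl⟩ := Finset.mem_image.1 hD'
    obtain ⟨hb, h1, h2⟩ := h𝒟 D hD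
    obtain ⟨e1, e2⟩ := img φ hφ (ww δ a o D) (hinj D hD) hc
    constructor
    · calc ((((ww δ a o D).image fun z => (φ z : ℚ) / c) +
              ((ww δ a o D).image fun z => (φ z : ℚ) / c)).card : ℝ)
          ≤ ((ww δ a o D + ww δ a o D).card : ℝ) := Nat.cast_le.2 e2
        _ ≤ cst d o * ((cells δ (D + D)).ncard : ℝ) := ww_add hδ a ho hb
        _ ≤ C * (K * (dc δ D).card) := by
            rw [card_dc hδ hb]
            exact mul_le_mul hC h1 (Nat.cast_nonneg _) ((cst_nonneg d ho).trans hC)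
        _ ≤ C * (K * (ww δ a o D).card) := by
            have h3 : ((dc δ D).card : ℝ) ≤ ((ww δ a o D).card : ℝ) :=
              Nat.cast_le.2 (le_ww_card ha ho D)
            exact mul_le_mul_of_nonneg_left (mul_le_mul_of_nonneg_left h3 hK)
              ((cst_nonneg d ho).trans hC)
        _ = C * K * ((((ww δ a o D).image fun z => (φ z : ℚ) / c)).card : ℝ) := by
            rw [e1]; ring
    · rw [e1]
      refine (ww_card_le a ho D).trans ?_
      rw [card_dc hδ hb]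
      exact mul_le_mul ((le_cst d ho).trans hC) h2 (Nat.cast_nonneg _)
        ((cst_nonneg d ho).trans hC)
  · intro q hq
    obtain ⟨D, hD, z, hz, rfl⟩ := hP q hq
    exact ⟨_, Finset.mem_image_of_mem _ hD, Finset.mem_image_of_mem _ hz⟩

/-- the offset of a line at a slope -/
theorem off_le {d : ℕ} {δ : ℝ} (hδ : 0 < δ) (p : (Fin d → ℝ) → Fin d → ℝ) (t₀ η : ℝ)
    {r : ℚ} (hr : r ≠ -1) (v : Fin d → ℝ) :
    ((r.den : ℤ) • pos δ p t₀ v + r.num • pos δ p (t₀ + η) v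
      - ((r.den : ℤ) + r.num) • pos δ p (t₀ + (r : ℝ) / (1 + r) * η) v) ∈ box d (offs r) := by
  have hr1 : (1 + (r : ℝ)) ≠ 0 := by
    intro h
    apply hr
    have : (r : ℝ) = ((-1 : ℚ) : ℝ) := by push_cast; linarith
    exact_mod_cast this
  have hden : (0 : ℝ) < r.den := by exact_mod_cast r.den_pos
  have hrnum : (r : ℝ) * r.den = r.num := by
    have := Rat.mul_den_eq_num r
    exact_mod_cast this
  set tr := t₀ + (r : ℝ) / (1 + r) * η with htr
  rw [box, Fintype.mem_piFinset]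
  intro i
  rw [Finset.mem_Icc, ← abs_le]
  simp only [Pi.sub_apply, Pi.add_apply, Pi.smul_apply, smul_eq_mul]
  set a : ℝ := (p v i + t₀ * v i) / δ with ha
  set b : ℝ := (p v i + (t₀ + η) * v i) / δ with hb
  set e : ℝ := (p v i + tr * v i) / δ with he
  have hlin : (r.den : ℝ) * a + r.num * b = ((r.den : ℝ) + r.num) * e := by
    rw [← hrnum, ha, hb, he, htr]
    field_simp
    ring
  have e1 : (⌊a⌋ : ℝ) ≤ a := Int.floor_le a
  have e2 : a < ⌊a⌋ + 1 := Int.lt_floor_add_one a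
  have e3 : (⌊b⌋ : ℝ) ≤ b := Int.floor_le b
  have e4 : b < ⌊b⌋ + 1 := Int.lt_floor_add_one b
  have e5 : (⌊e⌋ : ℝ) ≤ e := Int.floor_le e
  have e6 : e < ⌊e⌋ + 1 := Int.lt_floor_add_one e
  have hval : (((r.den : ℤ) * pos δ p t₀ v i + r.num * pos δ p (t₀ + η) v i
      - ((r.den : ℤ) + r.num) * pos δ p tr v i : ℤ) : ℝ) = -(r.den : ℝ) * (a - ⌊a⌋)
      - r.num * (b - ⌊b⌋) + ((r.den : ℝ) + r.num) * (e - ⌊e⌋) := by
    simp only [pos, fl]
    push_cast
    rw [← ha, ← hb, ← he]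
    linarith [hlin]
  have hle : |(((r.den : ℤ) * pos δ p t₀ v i + r.num * pos δ p (t₀ + η) v i
      - ((r.den : ℤ) + r.num) * pos δ p tr v i : ℤ) : ℝ)| ≤ (offs r : ℝ) := by
    rw [hval]
    unfold offs
    push_cast
    have f1 : |(-(r.den : ℝ)) * (a - ⌊a⌋)| ≤ r.den := by
      rw [abs_mul, abs_neg, abs_of_pos hden]
      have : |a - ⌊a⌋| ≤ 1 := abs_le.mpr ⟨by linarith, by linarith⟩
      nlinarith
    have f2 : |(r.num : ℝ) * (b - ⌊b⌋)| ≤ |(r.num : ℝ)| := by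
      rw [abs_mul]
      have : |b - ⌊b⌋| ≤ 1 := abs_le.mpr ⟨by linarith, by linarith⟩
      nlinarith [abs_nonneg (r.num : ℝ)]
    have f3 : |((r.den : ℝ) + r.num) * (e - ⌊e⌋)| ≤ |(r.den : ℝ) + r.num| := by
      rw [abs_mul]
      have : |e - ⌊e⌋| ≤ 1 := abs_le.mpr ⟨by linarith, by linarith⟩
      nlinarith [abs_nonneg ((r.den : ℝ) + r.num)]
    calc |-(r.den : ℝ) * (a - ⌊a⌋) - r.num * (b - ⌊b⌋) + ((r.den : ℝ) + r.num) * (e - ⌊e⌋)|
        ≤ |-(r.den : ℝ) * (a - ⌊a⌋) - r.num * (b - ⌊b⌋)|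
          + |((r.den : ℝ) + r.num) * (e - ⌊e⌋)| := abs_add_le _ _
      _ ≤ (|-(r.den : ℝ) * (a - ⌊a⌋)| + |r.num * (b - ⌊b⌋)|)
          + |((r.den : ℝ) + r.num) * (e - ⌊e⌋)| := by gcongr; exact abs_sub _ _
      _ ≤ _ := by linarith
  exact_mod_cast hle

/-- **Core estimate for structured positions.** -/
theorem core (S : Finset ℚ) (hS : (-1 : ℚ) ∉ S) (d : ℕ) :
    ∃ m : ℕ, ∃ C : ℝ, 1 ≤ C ∧ ∀ (δ : ℝ), 0 < δ → ∀ (V : Finset (Fin d → ℝ)), V.Nonempty →
      ∀ (p : (Fin d → ℝ) → Fin d → ℝ) (t₀ η : ℝ), 0 < η →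
      (∀ v ∈ V, ∀ w ∈ V, v ≠ w → ∃ i, 2 * δ / η ≤ |v i - w i|) → ∀ K L B : ℝ, 0 ≤ K →
      Cov δ K L B ((fun v => fun i => p v i + (t₀ + η) * v i) '' (V : Set (Fin d → ℝ))) →
      (∀ r ∈ S, Cov δ K L B ((fun v => fun i => p v i + (t₀ + (r : ℝ) / (1 + r) * η) * v i) ''
        (V : Set (Fin d → ℝ)))) →
      (V.card : ℝ) ^ S.card ≤ (C * K * L) ^ m * (C * B) ^ (S.card + 1) := by
  classical
  obtain ⟨m, hm⟩ := main1 S hS
  set C : ℝ := 1 + cst d 0 + ∑ r ∈ S, cst d (offs r) with hC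
  have hpos : ∀ r : ℚ, (0 : ℝ) ≤ cst d (offs r) := fun r => cst_nonneg d (offs_nonneg r)
  have hsum : 0 ≤ ∑ r ∈ S, cst d (offs r) := Finset.sum_nonneg fun r _ => hpos r
  have hc0 : 0 ≤ cst d 0 := cst_nonneg d le_rfl
  have hC1 : 1 ≤ C := by rw [hC]; linarith
  refine ⟨m, C, hC1, ?_⟩
  intro δ hδ V hVne p t₀ η hη hsep K L B hK hinf hr
  obtain ⟨𝒟₀, h01, h02, h03⟩ := hinf
  have hr' : ∀ r : ℚ, ∃ 𝒟 : Finset (Set (Fin d → ℝ)), r ∈ S → ((𝒟.card : ℝ) ≤ L ∧
      (((fun v => fun i => p v i + (t₀ + (r : ℝ) / (1 + r) * η) * v i) ''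
        (V : Set (Fin d → ℝ))) ⊆ ⋃ D ∈ 𝒟, D) ∧
      ∀ D ∈ 𝒟, Bornology.IsBounded D ∧
      ((cells δ (D + D)).ncard : ℝ) ≤ K * (cells δ D).ncard ∧
      ((cells δ D).ncard : ℝ) ≤ B) := by
    intro r
    by_cases h : r ∈ S
    · obtain ⟨𝒟, h1⟩ := hr r h
      exact ⟨𝒟, fun _ => h1⟩
    · exact ⟨∅, fun h' => absurd h' h⟩
  choose 𝒟 h𝒟 using hr'
  set W : Finset (Fin d → ℤ) := (V.image fun v => pos δ p t₀ v - pos δ p (t₀ + η) v) ∪
    (𝒟₀.biUnion fun D => ww δ 1 0 D) ∪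
    (S.biUnion fun r => (𝒟 r).biUnion fun D => ww δ ((r.den : ℤ) + r.num) (offs r) D) with hW
  obtain ⟨M₀, hM₀⟩ := exists_hom W
  set φ : (Fin d → ℤ) → ℤ := fun z => ∑ i, z i * M₀ ^ (i : ℕ) with hφ
  have hsub : ∀ z w, φ z - φ w = φ (z - w) := by
    intro z w
    simp only [hφ, Pi.sub_apply, sub_mul, Finset.sum_sub_distrib]
  have hadd : ∀ z w, φ (z + w) = φ z + φ w := by
    intro z w
    simp only [hφ, Pi.add_apply, add_mul, Finset.sum_add_distrib]
  have hsmul : ∀ (k : ℤ) z, φ (k • z) = k * φ z := by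
    intro k z
    simp only [hφ, Pi.smul_apply, smul_eq_mul, Finset.mul_sum]
    exact Finset.sum_congr rfl fun i _ => by ring
  set A : Finset (ℤ × ℤ) := V.image fun v => (φ (pos δ p t₀ v), φ (pos δ p (t₀ + η) v)) with hA
  have hAne : A.Nonempty := hVne.image _
  have h1 : V.card = (proj (-1) A).card := by
    rw [hA, proj, Finset.image_image]
    symm
    apply Finset.card_image_of_injOn
    intro v hv w hw hvw
    simp only [Function.comp] at hvw
    have h2 : ((φ (pos δ p t₀ v) - φ (pos δ p (t₀ + η) v) : ℤ) : ℚ) =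
        ((φ (pos δ p t₀ w) - φ (pos δ p (t₀ + η) w) : ℤ) : ℚ) := by
      push_cast
      linarith
    have h3 : φ (pos δ p t₀ v) - φ (pos δ p (t₀ + η) v) =
        φ (pos δ p t₀ w) - φ (pos δ p (t₀ + η) w) := by exact_mod_cast h2
    rw [hsub, hsub] at h3
    by_contra hne
    refine pos_inj hδ p t₀ η hη v w (hsep v hv w hw hne) (hM₀ _ ?_ _ ?_ h3)
    · rw [hW, Finset.mem_union, Finset.mem_union]
      exact Or.inl (Or.inl (Finset.mem_image_of_mem (fun v => pos δ p t₀ v - pos δ p (t₀ + η) v) hv))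
    · rw [hW, Finset.mem_union, Finset.mem_union]
      exact Or.inl (Or.inl (Finset.mem_image_of_mem (fun v => pos δ p t₀ v - pos δ p (t₀ + η) v) hw))
  have hA1 : Structured (C * K) L (C * B) (projInf A) := by
    refine str_of_cov hδ (a := 1) (o := 0) one_ne_zero le_rfl (by rw [hC]; linarith) hK 𝒟₀ h01
      h03 φ hadd ?_ (c := 1) one_ne_zero _ ?_
    · intro D hD z hz w hw h
      refine hM₀ z ?_ w ?_ h
      · rw [hW, Finset.mem_union, Finset.mem_union, Finset.mem_biUnion]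
        exact Or.inl (Or.inr ⟨D, hD, hz⟩)
      · rw [hW, Finset.mem_union, Finset.mem_union, Finset.mem_biUnion]
        exact Or.inl (Or.inr ⟨D, hD, hw⟩)
    · intro q hq
      obtain ⟨u, hu, rfl⟩ := Finset.mem_image.1 hq
      obtain ⟨v, hv, rfl⟩ := Finset.mem_image.1 hu
      have h2 := h02 (Set.mem_image_of_mem _ hv)
      rw [Set.mem_iUnion₂] at h2
      obtain ⟨D, hD, hvD⟩ := h2
      refine ⟨D, hD, pos δ p (t₀ + η) v, ?_, by simp⟩
      refine Finset.mem_image.2 ⟨(pos δ p (t₀ + η) v, 0), ?_, by simp⟩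
      rw [Finset.mem_product]
      refine ⟨?_, box_zero_mem d le_rfl⟩
      rw [mem_dc hδ (h03 D hD).1]
      exact ⟨_, hvD, rfl⟩
  have hA2 : ∀ r ∈ S, Structured (C * K) L (C * B) (proj r A) := by
    intro r hrS
    have hr1 : r ≠ -1 := fun h' => hS (h' ▸ hrS)
    have hden : (r.den : ℚ) ≠ 0 := by exact_mod_cast r.den_pos.ne'
    have hrQ : r * r.den = r.num := Rat.mul_den_eq_num r
    have ha : (r.den : ℤ) + r.num ≠ 0 := by
      intro h
      apply hr1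
      have h2 : (r.den : ℚ) + r.num = 0 := by exact_mod_cast h
      rw [← hrQ] at h2
      have h3 : (1 + r) * r.den = 0 := by linarith
      rcases mul_eq_zero.1 h3 with h4 | h4
      · linarith
      · exact absurd h4 hden
    obtain ⟨g1, g2, g3⟩ := h𝒟 r hrS
    refine str_of_cov hδ (a := (r.den : ℤ) + r.num) (o := offs r) ha (offs_nonneg r) ?_ hK
      (𝒟 r) g1 g3 φ hadd ?_ (c := (r.den : ℚ)) hden _ ?_
    · rw [hC]
      have := Finset.single_le_sum (f := fun r : ℚ => cst d (offs r)) (fun r _ => hpos r) hrS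
      linarith
    · intro D hD z hz w hw h
      refine hM₀ z ?_ w ?_ h
      · rw [hW, Finset.mem_union, Finset.mem_biUnion]
        exact Or.inr ⟨r, hrS, Finset.mem_biUnion.2 ⟨D, hD, hz⟩⟩
      · rw [hW, Finset.mem_union, Finset.mem_biUnion]
        exact Or.inr ⟨r, hrS, Finset.mem_biUnion.2 ⟨D, hD, hw⟩⟩
    · intro q hq
      obtain ⟨u, hu, rfl⟩ := Finset.mem_image.1 hq
      obtain ⟨v, hv, rfl⟩ := Finset.mem_image.1 hu
      have h2 := g2 (Set.mem_image_of_mem _ hv)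
      rw [Set.mem_iUnion₂] at h2
      obtain ⟨D, hD, hvD⟩ := h2
      have hoff := off_le hδ p t₀ η hr1 v
      refine ⟨D, hD, (r.den : ℤ) • pos δ p t₀ v + r.num • pos δ p (t₀ + η) v, ?_, ?_⟩
      · refine Finset.mem_image.2 ⟨(pos δ p (t₀ + (r : ℝ) / (1 + r) * η) v,
          (r.den : ℤ) • pos δ p t₀ v + r.num • pos δ p (t₀ + η) v
      - ((r.den : ℤ) + r.num) • pos δ p (t₀ + (r : ℝ) / (1 + r) * η) v), ?_, ?_⟩
        · rw [Finset.mem_product]
          refine ⟨?_, hoff⟩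
          rw [mem_dc hδ (g3 D hD).1]
          exact ⟨_, hvD, rfl⟩
        · dsimp only
          abel
      · rw [hadd, hsmul, hsmul]
        push_cast
        rw [← hrQ]
        field_simp
  have key := hm A hAne (C * K) L (C * B) hA1 hA2
  rw [← h1] at key
  exact key

end Pool.Agent.H668.Str
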