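import Pool.Agent.H668.Str.Slab
import Pool.Agent.W46.KK.Final

/-!
# Kakeya sets whose slices are structured: dimension
-/

set_option autoImplicit false

open Finset MeasureTheory Set Filter Topology
open scoped ENNReal

namespace Pool.Agent.H668.Str
open Pool.Agent.W46.KK (fl card_mul_le eqv eqv_mp eqv_symm HasSegments)

/-- slice at height `t` -/
def sl {d : ℕ} (K : Set (EuclideanSpace ℝ (Fin (d + 1)))) (t : ℝ) : Set (Fin d → ℝ) :=
  {y | WithLp.toLp 2 (Fin.cons t y : Fin (d + 1) → ℝ) ∈ K}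

theorem sl_bounded {d : ℕ} {K : Set (EuclideanSpace ℝ (Fin (d + 1)))}
    (hK : Bornology.IsBounded K) (t : ℝ) : Bornology.IsBounded (sl K t) := by
  obtain ⟨R, hR⟩ := hK.subset_closedBall 0
  refine (Metric.isBounded_closedBall (x := (0 : Fin d → ℝ)) (r := |R|)).subset ?_
  intro y hy
  have h1 := hR hy
  rw [mem_closedBall_zero_iff] at h1
  rw [mem_closedBall_zero_iff]
  rw [pi_norm_le_iff_of_nonneg (abs_nonneg _)]
  intro i
  have h2 := PiLp.norm_apply_le (WithLp.toLp 2 (Fin.cons t y : Fin (d + 1) → ℝ) :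
    EuclideanSpace ℝ (Fin (d + 1))) (Fin.succ i)
  simp only [Fin.cons_succ] at h2
  exact h2.trans (h1.trans (le_abs_self R))

/-- the volume bound at one scale -/
theorem vol_bound (S : Finset ℚ) (hS : (-1 : ℚ) ∉ S) (hne : S.Nonempty) (d : ℕ) :
    ∃ m : ℕ, ∃ κ : ℝ, 0 < κ ∧ ∀ K : Set (EuclideanSpace ℝ (Fin (d + 1))),
      Bornology.IsBounded K → HasSegments K → ∀ δ : ℝ, 0 < δ → ∀ M : ℝ, 1 ≤ M →
        volume {t : ℝ | ¬ StrSet δ M M (sl K t)} ≤ ENNReal.ofReal κ →
        ENNReal.ofReal (κ * ((M * M) ^ m)⁻¹ * δ ^ ((d : ℝ) / (S.card + 1))) ≤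
          volume (Metric.thickening ((d + 1) * δ) K) := by
  classical
  obtain ⟨m, κ, hκ, hkak⟩ := kak S hS hne d (1 / (d + 1)) (by positivity)
  refine ⟨m, κ, hκ, ?_⟩
  intro K hKb hK δ hδpos M hM hZ
  have hd1 : (0 : ℝ) < (d : ℝ) + 1 := by positivity
  set r : ℝ := (d + 1) * δ with hr'
  have hr : 0 < r := by positivity
  -- the vector `(1, v)`
  set w : (Fin d → ℝ) → EuclideanSpace ℝ (Fin (d + 1)) := fun v => WithLp.toLp 2 (Fin.cons 1 v)
    with hw
  have hw0 : ∀ v, (w v) 0 = 1 := fun v => rfl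
  have hws : ∀ v i, (w v) (Fin.succ i) = v i := fun v i => rfl
  have hnorm1 : ∀ v, 1 ≤ ‖w v‖ := by
    intro v
    have := PiLp.norm_apply_le (w v) 0
    rw [hw0] at this
    simpa using this
  have hex : ∀ v : Fin d → ℝ, ∃ a : EuclideanSpace ℝ (Fin (d + 1)),
      ∀ t ∈ Set.Icc (0 : ℝ) 1, a + t • (‖w v‖⁻¹ • w v) ∈ K := by
    intro v
    apply hK
    rw [norm_smul, norm_inv, norm_norm]
    exact inv_mul_cancel₀ (by have := hnorm1 v; positivity)
  choose a ha using hex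
  -- positions lie in the slices
  have hpos : ∀ t : ℝ, ((fun v : Fin d → ℝ => fun i => (a v (Fin.succ i) - a v 0 * v i) + t * v i) ''
      {v : Fin d → ℝ | (∀ i, 0 ≤ v i ∧ v i ≤ 1) ∧ t ∈ Set.Icc (a v 0) (a v 0 + 1 / (d + 1))}) ⊆
      sl K t := by
    rintro t _ ⟨v, ⟨hv, ht⟩, rfl⟩
    have hnle : ‖w v‖ ≤ d + 1 := by
      rw [EuclideanSpace.norm_eq]
      apply Real.sqrt_le_iff.mpr
      refine ⟨by positivity, ?_⟩
      rw [Fin.sum_univ_succ]
      have h1 : ∑ i : Fin d, ‖(w v) (Fin.succ i)‖ ^ 2 ≤ ∑ _i : Fin d, (1 : ℝ) := by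
        refine Finset.sum_le_sum fun i _ => ?_
        rw [hws, Real.norm_eq_abs, sq_abs]
        have := hv i
        nlinarith
      rw [Finset.sum_const, Finset.card_univ, Fintype.card_fin, nsmul_eq_mul, mul_one] at h1
      rw [hw0]
      have hdnn : (0 : ℝ) ≤ d := Nat.cast_nonneg d
      simp only [norm_one, one_pow]
      nlinarith
    have h2 := ha v ((t - a v 0) * ‖w v‖) ⟨by
        have := ht.1
        have := hnorm1 v
        exact mul_nonneg (by linarith) (by linarith), by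
        have h3 : t - a v 0 ≤ 1 / (d + 1) := by linarith [ht.2]
        calc (t - a v 0) * ‖w v‖ ≤ 1 / (d + 1) * (d + 1) := by
              apply mul_le_mul h3 hnle (norm_nonneg _) (by positivity)
          _ = 1 := by field_simp⟩
    rw [smul_smul, mul_assoc, mul_inv_cancel₀ (by have := hnorm1 v; positivity), mul_one] at h2
    have e : (WithLp.toLp 2 (Fin.cons t (fun i => (a v (Fin.succ i) - a v 0 * v i) + t * v i) :
        Fin (d + 1) → ℝ) : EuclideanSpace ℝ (Fin (d + 1))) = a v + (t - a v 0) • w v := by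
      ext i
      refine Fin.cases ?_ (fun i => ?_) i
      · simp only [PiLp.add_apply, PiLp.smul_apply, smul_eq_mul, hw0, Fin.cons_zero]
        ring
      · simp only [PiLp.add_apply, PiLp.smul_apply, smul_eq_mul, hws, Fin.cons_succ]
        ring
    show WithLp.toLp 2 _ ∈ K
    rw [e]
    exact h2
  -- the thickening contains the neighbourhoods of the slices
  have hT : ∀ (t : ℝ) (x : Fin d → ℝ), x ∈ sl K t → ∀ y : Fin d → ℝ, (∀ i, |y i - x i| ≤ δ) →
      (t, y) ∈ (eqv d).symm ⁻¹' Metric.thickening r K := by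
    intro t x hx y hy
    rw [Set.mem_preimage, eqv_symm, Metric.mem_thickening_iff]
    refine ⟨WithLp.toLp 2 (Fin.cons t x), hx, ?_⟩
    rw [EuclideanSpace.dist_eq, Fin.sum_univ_succ]
    have hsum : ∑ i : Fin d, dist (y i) (x i) ^ 2 ≤ d * δ ^ 2 := by
      calc _ ≤ ∑ _i : Fin d, δ ^ 2 := by
            refine Finset.sum_le_sum fun i _ => ?_
            have := hy i
            rw [Real.dist_eq]
            exact pow_le_pow_left₀ (abs_nonneg _) this 2
        _ = d * δ ^ 2 := by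
          rw [Finset.sum_const, Finset.card_univ, Fintype.card_fin, nsmul_eq_mul]
    have hlt : (d : ℝ) * δ ^ 2 < r ^ 2 := by
      rw [hr', mul_pow]
      have hdnn : (0 : ℝ) ≤ d := Nat.cast_nonneg d
      apply mul_lt_mul_of_pos_right _ (by positivity)
      nlinarith
    calc _ ≤ √((d : ℝ) * δ ^ 2) := by
          apply Real.sqrt_le_sqrt
          simp only [Fin.cons_zero, Fin.cons_succ, dist_self]
          linarith
      _ < r := by
          rw [Real.sqrt_lt' hr]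
          exact hlt
  have key := hkak δ hδpos (fun v i => a v (Fin.succ i) - a v 0 * v i) (fun v => a v 0)
    ((eqv d).symm ⁻¹' Metric.thickening r K)
    ((eqv d).symm.measurable Metric.isOpen_thickening.measurableSet) M M hM hM
    {t : ℝ | ¬ StrSet δ M M (sl K t)} hZ (by
      intro t ht
      rw [Set.mem_ofPred_eq, not_not] at ht
      refine ⟨((cells δ (sl K t)).ncard : ℝ), Nat.cast_nonneg _, ?_, ?_⟩
      · -- representatives of the cells
        have hrep : ∀ z : Fin d → ℤ, ∃ x : Fin d → ℝ, z ∈ cells δ (sl K t) →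
            x ∈ sl K t ∧ fl δ x = z := by
          intro z
          by_cases h : z ∈ cells δ (sl K t)
          · obtain ⟨x, hx, hxz⟩ := h
            exact ⟨x, fun _ => ⟨hx, hxz⟩⟩
          · exact ⟨0, fun h' => absurd h' h⟩
        choose f hf using hrep
        have h1 := card_mul_le hδpos (dc δ (sl K t)) f
          (Prod.mk t ⁻¹' ((eqv d).symm ⁻¹' Metric.thickening r K)) (by
            intro z hz y hy
            rw [mem_dc hδpos (sl_bounded hKb t)] at hz
            exact hT t (f z) (hf z hz).1 y hy)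
        have h2 : (dc δ (sl K t)).image (fun z => fl δ (f z)) = dc δ (sl K t) := by
          ext z
          rw [Finset.mem_image]
          constructor
          · rintro ⟨u, hu, rfl⟩
            have hu' := hu
            rw [mem_dc hδpos (sl_bounded hKb t)] at hu'
            rw [(hf u hu').2]
            exact hu
          · intro hz
            have hz' := hz
            rw [mem_dc hδpos (sl_bounded hKb t)] at hz'
            exact ⟨z, hz, (hf z hz').2⟩
        rw [h2, card_dc hδpos (sl_bounded hKb t)] at h1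
        rw [ENNReal.ofReal_mul (Nat.cast_nonneg _), ENNReal.ofReal_natCast,
          ENNReal.ofReal_pow hδpos.le]
        exact h1
      · obtain ⟨𝒟, g1, g2, g3⟩ := ht
        exact ⟨𝒟, g1, (hpos t).trans g2, g3⟩)
  rw [(eqv_mp d).symm.measure_preimage_equiv] at key
  exact key

/-- The lower Minkowski dimension `n - limsup_{δ → 0+} log |N_δ K| / log δ`. -/
noncomputable def lowerMinkowski {n : ℕ} (K : Set (EuclideanSpace ℝ (Fin n))) : ℝ :=
  n - limsup (fun δ : ℝ => Real.log (volume (Metric.thickening δ K)).toReal / Real.log δ) (𝓝[>] 0)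

/-- a set of `k` slopes -/
theorem slopes (k : ℕ) : ∃ S : Finset ℚ, (-1 : ℚ) ∉ S ∧ S.card = k := by
  refine ⟨(Finset.range k).image fun i : ℕ => (i : ℚ), ?_, ?_⟩
  · intro h
    obtain ⟨i, -, hi⟩ := Finset.mem_image.1 h
    have : (0 : ℚ) ≤ i := Nat.cast_nonneg _
    linarith
  · rw [Finset.card_image_of_injective _ Nat.cast_injective, Finset.card_range]

/-- the slices are structured with exponent `γ`, for most heights, at all small scales -/
def Most {d : ℕ} (γ : ℝ) (K : Set (EuclideanSpace ℝ (Fin (d + 1)))) : Prop :=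
  ∃ δ₀ : ℝ, 0 < δ₀ ∧ ∀ δ : ℝ, 0 < δ → δ < δ₀ →
    volume {t : ℝ | ¬ StrSet δ (δ ^ (-γ)) (δ ^ (-γ)) (sl K t)} ≤ ENNReal.ofReal γ

theorem low (d : ℕ) (ε : ℝ) (hε : 0 < ε) : ∃ γ : ℝ, 0 < γ ∧
    ∀ K : Set (EuclideanSpace ℝ (Fin (d + 1))), Bornology.IsBounded K → HasSegments K →
      Most γ K → ∀ᶠ δ : ℝ in 𝓝[>] (0 : ℝ), δ ^ ε ≤ (volume (Metric.thickening δ K)).toReal := by
  have hlog : Tendsto Real.log (𝓝[>] 0) atBot := Real.tendsto_log_nhdsGT_zero
  have hd1 : (0 : ℝ) < (d : ℝ) + 1 := by positivity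
  obtain ⟨k, hk⟩ := exists_nat_gt (4 * (d : ℝ) / ε)
  obtain ⟨S, hS, hSk⟩ := slopes (k + 1)
  have hne : S.Nonempty := by rw [← Finset.card_pos, hSk]; omega
  obtain ⟨m, κ, hκ, hvol⟩ := vol_bound S hS hne d
  set ε' : ℝ := min κ (ε / (4 * (2 * m + 1))) with hε'
  have hε'pos : 0 < ε' := by rw [hε']; positivity
  refine ⟨ε', hε'pos, ?_⟩
  rintro K hKb hK ⟨δ₀, hδ₀, hstr⟩
  have hfin : ∀ δ : ℝ, volume (Metric.thickening δ K) ≠ ⊤ := fun δ =>
    (hKb.thickening (δ := δ)).measure_lt_top.ne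
  have hd : (d : ℝ) / (S.card + 1) ≤ ε / 4 := by
    rw [hSk, div_le_iff₀ (by positivity)]
    rw [div_lt_iff₀ hε] at hk
    push_cast
    nlinarith
  have hexp : 2 * m * ε' + (d : ℝ) / (S.card + 1) ≤ ε / 2 := by
    have h1 : ε' ≤ ε / (4 * (2 * m + 1)) := min_le_right _ _
    have h2 : 2 * m * ε' ≤ ε / 4 := by
      calc 2 * m * ε' ≤ 2 * m * (ε / (4 * (2 * m + 1))) := by gcongr
        _ ≤ (2 * m + 1) * (ε / (4 * (2 * m + 1))) := by
          apply mul_le_mul_of_nonneg_right _ (by positivity)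
          linarith
        _ = ε / 4 := by field_simp
    linarith
  -- eventually in `r`
  have ev1 : ∀ᶠ r : ℝ in 𝓝[>] (0 : ℝ), r < min ((d + 1) * δ₀) 1 := by
    have : Set.Ioo (0 : ℝ) (min ((d + 1) * δ₀) 1) ∈ 𝓝[>] (0 : ℝ) :=
      Ioo_mem_nhdsGT (by positivity)
    filter_upwards [this] with r hr using hr.2
  have ev2 : ∀ᶠ r : ℝ in 𝓝[>] (0 : ℝ), Real.log r < -(|Real.log (κ * (1 / (d + 1)) ^ (ε / 2))| /
      (ε / 2) + 1) := hlog.eventually (eventually_lt_atBot _)
  have ev3 : ∀ᶠ r : ℝ in 𝓝[>] (0 : ℝ), 0 < r := eventually_mem_nhdsWithin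
  filter_upwards [ev1, ev2, ev3] with r hr1 hr2 hr3
  set δ : ℝ := r / (d + 1) with hδ
  have hδpos : 0 < δ := by positivity
  have hrδ : r = (d + 1) * δ := by rw [hδ]; field_simp
  have hδ1 : δ < δ₀ := by
    rw [hδ, div_lt_iff₀ hd1]
    have := lt_of_lt_of_le hr1 (min_le_left _ _)
    linarith
  have hr1' : r < 1 := lt_of_lt_of_le hr1 (min_le_right _ _)
  have hδle1 : δ ≤ 1 := by
    rw [hδ, div_le_one hd1]
    have : (0 : ℝ) ≤ d := Nat.cast_nonneg d
    linarith
  have hM : 1 ≤ δ ^ (-ε') := Real.one_le_rpow_of_pos_of_le_one_of_nonpos hδpos hδle1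
    (by linarith)
  have h1 := hvol K hKb hK δ hδpos (δ ^ (-ε')) hM
    ((hstr δ hδpos hδ1).trans (ENNReal.ofReal_le_ofReal (min_le_left _ _)))
  rw [← hrδ] at h1
  have h2 := (ENNReal.ofReal_le_iff_le_toReal (hfin r)).mp h1
  refine le_trans ?_ h2
  have h3 : ((δ ^ (-ε') * δ ^ (-ε')) ^ m)⁻¹ = δ ^ (2 * m * ε') := by
    rw [← Real.rpow_add hδpos, ← Real.rpow_natCast, ← Real.rpow_mul hδpos.le,
      ← Real.rpow_neg hδpos.le]
    congr 1
    ring
  rw [h3, mul_assoc, ← Real.rpow_add hδpos]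
  have h4 : δ ^ (ε / 2) ≤ δ ^ (2 * m * ε' + (d : ℝ) / (S.card + 1)) :=
    Real.rpow_le_rpow_of_exponent_ge hδpos hδle1 hexp
  refine le_trans ?_ (mul_le_mul_of_nonneg_left h4 hκ.le)
  -- `r ^ ε ≤ κ (r / (d+1)) ^ (ε/2)`
  have h5 : κ * δ ^ (ε / 2) = (κ * (1 / (d + 1)) ^ (ε / 2)) * r ^ (ε / 2) := by
    rw [hδ, div_eq_mul_one_div r, Real.mul_rpow hr3.le (by positivity)]
    ring
  rw [h5]
  have h6 : r ^ ε = r ^ (ε / 2) * r ^ (ε / 2) := by
    rw [← Real.rpow_add hr3]; congr 1; ring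
  rw [h6]
  apply mul_le_mul_of_nonneg_right _ (by positivity)
  set κ' : ℝ := κ * (1 / (d + 1)) ^ (ε / 2) with hκ'
  have hκ'pos : 0 < κ' := by positivity
  rw [← Real.log_le_log_iff (by positivity) hκ'pos, Real.log_rpow hr3]
  have h7 : |Real.log κ'| / (ε / 2) < -Real.log r := by linarith
  rw [div_lt_iff₀ (by positivity)] at h7
  have := neg_abs_le (Real.log κ')
  nlinarith

/-- the bounds for the ratio of the logarithms -/
theorem ratio_le {n : ℕ} {K : Set (EuclideanSpace ℝ (Fin n))} {ε : ℝ}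
    (h : ∀ᶠ δ : ℝ in 𝓝[>] (0 : ℝ), δ ^ ε ≤ (volume (Metric.thickening δ K)).toReal) :
    ∀ᶠ δ : ℝ in 𝓝[>] (0 : ℝ),
      Real.log (volume (Metric.thickening δ K)).toReal / Real.log δ ≤ ε := by
  have hsmall : ∀ᶠ δ : ℝ in 𝓝[>] (0 : ℝ), 0 < δ ∧ δ < 1 := Ioo_mem_nhdsGT one_pos
  filter_upwards [h, hsmall] with δ h1 h3
  have hneg : Real.log δ < 0 := Real.log_neg h3.1 h3.2
  have h5 := Real.log_le_log (Real.rpow_pos_of_pos h3.1 _) h1
  rw [Real.log_rpow h3.1] at h5
  rwa [div_le_iff_of_neg hneg]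

theorem le_ratio {n : ℕ} {K : Set (EuclideanSpace ℝ (Fin n))} (hK : Bornology.IsBounded K) {ε : ℝ}
    (h : ∀ᶠ δ : ℝ in 𝓝[>] (0 : ℝ), δ ^ ε ≤ (volume (Metric.thickening δ K)).toReal)
    {η : ℝ} (hη : 0 < η) :
    ∀ᶠ δ : ℝ in 𝓝[>] (0 : ℝ),
      -η ≤ Real.log (volume (Metric.thickening δ K)).toReal / Real.log δ := by
  have hfin : ∀ δ : ℝ, volume (Metric.thickening δ K) ≠ ⊤ := fun δ =>
    (hK.thickening (δ := δ)).measure_lt_top.ne
  have hlog : Tendsto Real.log (𝓝[>] 0) atBot := Real.tendsto_log_nhdsGT_zero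
  have hsmall : ∀ᶠ δ : ℝ in 𝓝[>] (0 : ℝ), 0 < δ ∧ δ < 1 := Ioo_mem_nhdsGT one_pos
  set Mx : ℝ := (volume (Metric.thickening 1 K)).toReal with hMx
  have ev2 : ∀ᶠ r : ℝ in 𝓝[>] (0 : ℝ), Real.log r < -(|Real.log Mx| / η + 1) :=
    hlog.eventually (eventually_lt_atBot _)
  filter_upwards [h, ev2, hsmall] with δ h1 h2 h3
  have h0 : 0 ≤ |Real.log Mx| / η := by positivity
  have hneg : Real.log δ < 0 := by linarith
  have hvpos : 0 < (volume (Metric.thickening δ K)).toReal :=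
    lt_of_lt_of_le (Real.rpow_pos_of_pos h3.1 _) h1
  have hle : (volume (Metric.thickening δ K)).toReal ≤ Mx := by
    rw [hMx]
    exact ENNReal.toReal_mono (hfin 1) (measure_mono (Metric.thickening_mono h3.2.le K))
  have h4 := Real.log_le_log hvpos hle
  rw [le_div_iff_of_neg hneg]
  have h7 : |Real.log Mx| / η < -Real.log δ := by linarith
  rw [div_lt_iff₀ hη] at h7
  have := le_abs_self (Real.log Mx)
  nlinarith

theorem dim_ge (d : ℕ) (η : ℝ) (hη : 0 < η) : ∃ γ : ℝ, 0 < γ ∧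
    ∀ K : Set (EuclideanSpace ℝ (Fin (d + 1))), Bornology.IsBounded K → HasSegments K →
      Most γ K → d + 1 - η ≤ lowerMinkowski K := by
  obtain ⟨γ, hγ, h⟩ := low d η hη
  refine ⟨γ, hγ, fun K hKb hK hm => ?_⟩
  have h1 := h K hKb hK hm
  have h2 := ratio_le h1
  have h3 := le_ratio hKb h1 (η := 1) one_pos
  have h4 : limsup (fun δ : ℝ => Real.log (volume (Metric.thickening δ K)).toReal / Real.log δ)
      (𝓝[>] 0) ≤ η :=
    limsup_le_of_le (IsCoboundedUnder.of_frequently_ge (a := -1) (Eventually.frequently h3)) h2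
  unfold lowerMinkowski
  push_cast
  linarith

theorem dim (d : ℕ) (K : Set (EuclideanSpace ℝ (Fin (d + 1)))) (hKb : Bornology.IsBounded K)
    (hK : HasSegments K) (h : ∀ γ : ℝ, 0 < γ → Most γ K) :
    lowerMinkowski K = d + 1 := by
  have hlim : Tendsto (fun δ : ℝ => Real.log (volume (Metric.thickening δ K)).toReal / Real.log δ)
      (𝓝[>] 0) (𝓝 0) := by
    rw [Metric.tendsto_nhds]
    intro ε hε
    obtain ⟨γ, hγ, hl⟩ := low d (ε / 2) (by positivity)
    have h1 := hl K hKb hK (h γ hγ)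
    filter_upwards [ratio_le h1, le_ratio hKb h1 (η := ε / 2) (by positivity)] with δ h2 h3
    rw [Real.dist_eq, sub_zero, abs_lt]
    constructor <;> linarith
  unfold lowerMinkowski
  rw [hlim.limsup_eq]
  push_cast
  ring

end Pool.Agent.H668.Str
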