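import Pool.Agent.H668.Str.Core

/-!
# Kakeya sets whose slices are structured: volume of neighbourhoods
-/

set_option autoImplicit false

open Finset MeasureTheory Set
open scoped ENNReal

namespace Pool.Agent.H668.Str
open Pool.Agent.W46.KK

theorem Cov.mono {d : ℕ} {δ K L B B' : ℝ} {P P' : Set (Fin d → ℝ)} (h : Cov δ K L B P)
    (hP : P' ⊆ P) (hB : B ≤ B') : Cov δ K L B' P' := by
  obtain ⟨𝒟, h1, h2, h3⟩ := h
  exact ⟨𝒟, h1, hP.trans h2, fun D hD => ⟨(h3 D hD).1, (h3 D hD).2.1, (h3 D hD).2.2.trans hB⟩⟩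

/-- one slab -/
theorem slab (S : Finset ℚ) (hS : (-1 : ℚ) ∉ S) (d : ℕ) (μ : ℝ) (hμ : 0 < μ) :
    ∃ m : ℕ, ∃ η κ : ℝ, 0 < η ∧ 0 < κ ∧ ∀ (δ : ℝ), 0 < δ → ∀ (V : Finset (Fin d → ℝ)),
      V.Nonempty → ∀ (p : (Fin d → ℝ) → Fin d → ℝ) (a : ℝ) (T : Set (ℝ × (Fin d → ℝ))),
      MeasurableSet T →
      (∀ v ∈ V, ∀ w ∈ V, v ≠ w → ∃ i, 2 * δ / η ≤ |v i - w i|) →
      ∀ (K L : ℝ), 1 ≤ K → 1 ≤ L → ∀ Z : Set ℝ, volume Z ≤ ENNReal.ofReal κ →
      (∀ t ∈ Set.Ico a (a + μ), t ∉ Z → ∃ N : ℝ, 0 ≤ N ∧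
        ENNReal.ofReal (N * δ ^ d) ≤ volume (Prod.mk t ⁻¹' T) ∧
        Cov δ K L (K * N) ((fun v => fun i => p v i + t * v i) '' (V : Set (Fin d → ℝ)))) →
      ENNReal.ofReal (κ * ((K * L) ^ m)⁻¹ * δ ^ d *
        (V.card : ℝ) ^ ((S.card : ℝ) / (S.card + 1))) ≤
        volume (T ∩ (Set.Ico a (a + μ) ×ˢ Set.univ)) := by
  classical
  obtain ⟨m, C, hC1, hcore⟩ := core S hS d
  set R : Finset ℝ := insert 1 (S.image fun r : ℚ => (r : ℝ) / (1 + r)) with hR
  set Bd : ℝ := 1 + ∑ s ∈ R, |s| with hBd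
  have hBd1 : 1 ≤ Bd := by
    have : 0 ≤ ∑ s ∈ R, |s| := Finset.sum_nonneg fun _ _ => abs_nonneg _
    rw [hBd]; linarith
  have hs : ∀ s ∈ R, |s| ≤ Bd := by
    intro s hs
    have := Finset.single_le_sum (f := fun s : ℝ => |s|) (fun _ _ => abs_nonneg _) hs
    rw [hBd]; linarith
  set η : ℝ := μ / (4 * Bd) with hη
  have hηpos : 0 < η := by positivity
  have hsη : ∀ s ∈ R, |s * η| ≤ μ / 4 := by
    intro s hs'
    rw [abs_mul, abs_of_pos hηpos, hη]
    have := hs s hs'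
    calc |s| * (μ / (4 * Bd)) ≤ Bd * (μ / (4 * Bd)) := by gcongr
      _ = μ / 4 := by field_simp
  have hRpos : (0 : ℝ) < (R.card : ℝ) := by
    have : 0 < R.card := Finset.card_pos.mpr ⟨1, Finset.mem_insert_self _ _⟩
    exact_mod_cast this
  obtain ⟨rc, hrc⟩ : ∃ rc : ℝ, rc = (R.card : ℝ) := ⟨_, rfl⟩
  rw [← hrc] at hRpos
  set κ : ℝ := min (μ / (4 * rc)) (μ / (4 * C ^ (m + 1) * rc)) with hκ
  have hκpos : 0 < κ := by rw [hκ]; positivity
  refine ⟨m + 1, η, κ, hηpos, hκpos, ?_⟩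
  intro δ hδ V hVne p a T hT hsep K L hK1 hL1 Z hZ hV
  set slabT := T ∩ (Set.Ico a (a + μ) ×ˢ (Set.univ : Set (Fin d → ℝ))) with hslab
  by_cases htop : volume slabT = ⊤
  · rw [htop]; exact le_top
  have hslabmeas : MeasurableSet slabT := hT.inter (measurableSet_Ico.prod MeasurableSet.univ)
  set G : ℝ → ℝ≥0∞ := fun t => volume (Prod.mk t ⁻¹' slabT) with hG
  have hGm : Measurable G := measurable_measure_prodMk_left hslabmeas
  have hGint : ∫⁻ t, G t = volume slabT := by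
    rw [Measure.volume_eq_prod, Measure.prod_apply hslabmeas]
  have hGT : ∀ t ∈ Set.Ico a (a + μ), G t = volume (Prod.mk t ⁻¹' T) := by
    intro t ht
    have hset : Prod.mk t ⁻¹' slabT = Prod.mk t ⁻¹' T := by
      ext y
      rw [Set.mem_preimage, Set.mem_preimage, hslab]
      exact ⟨fun h => h.1, fun h => ⟨h, ht, Set.mem_univ _⟩⟩
    rw [hG]
    dsimp only
    rw [hset]
  set Z' : Set ℝ := toMeasurable volume Z with hZ'
  have hZ'meas : MeasurableSet Z' := measurableSet_toMeasurable _ _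
  have hZ'vol : volume Z' ≤ ENNReal.ofReal (μ / (4 * rc)) := by
    rw [hZ', measure_toMeasurable]
    exact hZ.trans (ENNReal.ofReal_le_ofReal (min_le_left _ _))
  set bad : Set ℝ := ⋃ s ∈ R, (fun t => t + s * η) ⁻¹' Z' with hbad
  have hbadmeas : MeasurableSet bad :=
    Finset.measurableSet_biUnion _ fun s _ => (measurable_id.add_const _) hZ'meas
  have hbadvol : volume bad ≤ ENNReal.ofReal (μ / 4) := by
    calc volume bad ≤ ∑ s ∈ R, volume ((fun t => t + s * η) ⁻¹' Z') := measure_biUnion_finset_le _ _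
      _ = ∑ s ∈ R, volume Z' := by
          refine Finset.sum_congr rfl fun s _ => ?_
          exact measure_preimage_add_right volume (s * η) Z'
      _ = ENNReal.ofReal rc * volume Z' := by
          rw [Finset.sum_const, nsmul_eq_mul, hrc, ENNReal.ofReal_natCast]
      _ ≤ ENNReal.ofReal rc * ENNReal.ofReal (μ / (4 * rc)) := by gcongr
      _ = ENNReal.ofReal (μ / 4) := by
          rw [← ENNReal.ofReal_mul hRpos.le]
          congr 1
          field_simp
  set mid0 : Set ℝ := Set.Ico (a + μ / 4) (a + 3 * μ / 4) with hmid0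
  have hmid0vol : volume mid0 = ENNReal.ofReal (μ / 2) := by
    rw [hmid0, Real.volume_Ico]; congr 1; ring
  set mid : Set ℝ := mid0 \ bad with hmid
  have hmidvol : ENNReal.ofReal (μ / 4) ≤ volume mid := by
    have h1 : ENNReal.ofReal (μ / 2) ≤ volume mid + ENNReal.ofReal (μ / 4) := by
      calc ENNReal.ofReal (μ / 2) = volume mid0 := hmid0vol.symm
        _ ≤ volume (mid0 \ bad) + volume bad := by
            refine (measure_mono ?_).trans (measure_union_le _ _)
            intro x hx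
            by_cases hxb : x ∈ bad
            · exact Or.inr hxb
            · exact Or.inl ⟨hx, hxb⟩
        _ ≤ _ := by gcongr
    have h2 : ENNReal.ofReal (μ / 2) = ENNReal.ofReal (μ / 4) + ENNReal.ofReal (μ / 4) := by
      rw [← ENNReal.ofReal_add (by positivity) (by positivity)]
      congr 1
      ring
    rw [h2] at h1
    exact (ENNReal.add_le_add_iff_right ENNReal.ofReal_ne_top).1 h1
  have hmid0' : volume mid ≠ 0 := by
    intro h0
    rw [h0] at hmidvol
    have : ENNReal.ofReal (μ / 4) = 0 := le_antisymm hmidvol zero_le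
    rw [ENNReal.ofReal_eq_zero] at this
    linarith
  have hmidtop : volume mid ≠ ⊤ := by
    refine ne_top_of_le_ne_top ?_ (measure_mono (Set.sdiff_subset (s := mid0) (t := bad)))
    rw [hmid0vol]; exact ENNReal.ofReal_ne_top
  set F : ℝ → ℝ≥0∞ := fun t => ∑ s ∈ R, G (t + s * η) with hF
  have hFm : Measurable F := by
    rw [hF]
    exact Finset.measurable_fun_sum _ fun s _ => hGm.comp (measurable_id.add_const _)
  obtain ⟨t₀, ht₀, hFt⟩ := exists_le_setLAverage hmid0' hmidtop hFm.aemeasurable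
  have hFint : ∫⁻ t in mid, F t ≤ ENNReal.ofReal rc * volume slabT := by
    calc ∫⁻ t in mid, F t ≤ ∫⁻ t, F t := setLIntegral_le_lintegral _ _
      _ = ∑ s ∈ R, ∫⁻ t, G (t + s * η) := by
          rw [hF, lintegral_finsetSum]
          exact fun s _ => hGm.comp (measurable_id.add_const _)
      _ = ∑ s ∈ R, volume slabT := by
          refine Finset.sum_congr rfl fun s _ => ?_
          rw [lintegral_add_right_eq_self (fun t => G t) (s * η), hGint]
      _ = ENNReal.ofReal rc * volume slabT := by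
          rw [Finset.sum_const, nsmul_eq_mul, hrc, ENNReal.ofReal_natCast]
  set W : ℝ := (volume slabT).toReal with hW
  have hWnn : 0 ≤ W := ENNReal.toReal_nonneg
  have hWeq : volume slabT = ENNReal.ofReal W := (ENNReal.ofReal_toReal htop).symm
  have hFle : F t₀ ≤ ENNReal.ofReal (4 * rc * W / μ) := by
    refine hFt.trans ?_
    rw [setLAverage_eq]
    refine ENNReal.div_le_of_le_mul ?_
    refine hFint.trans ?_
    calc ENNReal.ofReal rc * volume slabT
        = ENNReal.ofReal (4 * rc * W / μ) * ENNReal.ofReal (μ / 4) := by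
          rw [hWeq, ← ENNReal.ofReal_mul (by positivity), ← ENNReal.ofReal_mul (by positivity)]
          congr 1
          field_simp
      _ ≤ _ := by gcongr
  set B : ℝ := 4 * rc * W / μ / δ ^ d with hB
  have hBnn : 0 ≤ B := by positivity
  have htime : ∀ s ∈ R, Cov δ K L (K * B)
      ((fun v => fun i => p v i + (t₀ + s * η) * v i) '' (V : Set (Fin d → ℝ))) := by
    intro s hs'
    have h1 := hsη s hs'
    rw [abs_le] at h1
    have h2 : t₀ + s * η ∈ Set.Ico a (a + μ) := by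
      have ht₀' := ht₀.1
      rw [hmid0] at ht₀'
      constructor <;> [linarith [ht₀'.1, h1.1]; linarith [ht₀'.2, h1.2]]
    have h2' : t₀ + s * η ∉ Z := by
      intro hz
      apply ht₀.2
      rw [hbad, Set.mem_iUnion₂]
      exact ⟨s, hs', subset_toMeasurable _ _ hz⟩
    obtain ⟨N, hN0, hN1, hN2⟩ := hV _ h2 h2'
    refine hN2.mono (Set.Subset.refl _) ?_
    apply mul_le_mul_of_nonneg_left _ (by linarith)
    rw [← hGT _ h2] at hN1
    have h4 : G (t₀ + s * η) ≤ F t₀ := by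
      rw [hF]
      exact Finset.single_le_sum (f := fun s => G (t₀ + s * η)) (fun _ _ => zero_le) hs'
    have h5 := (hN1.trans h4).trans hFle
    rw [ENNReal.ofReal_le_ofReal_iff (by positivity)] at h5
    rw [hB, le_div_iff₀ (by positivity)]
    exact h5
  have key := hcore δ hδ V hVne p t₀ η hηpos hsep K L (K * B) (by linarith)
    (by have := htime 1 (Finset.mem_insert_self _ _); rwa [one_mul] at this)
    (by
      intro r hr
      exact htime _ (Finset.mem_insert_of_mem (Finset.mem_image_of_mem _ hr)))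
  obtain ⟨k, hk⟩ : ∃ k : ℕ, k = S.card := ⟨_, rfl⟩
  rw [← hk] at key ⊢
  obtain ⟨nV, hnV⟩ : ∃ nV : ℝ, nV = (V.card : ℝ) := ⟨_, rfl⟩
  have hnV0 : 0 ≤ nV := by rw [hnV]; exact Nat.cast_nonneg _
  rw [← hnV] at key ⊢
  have hCKL : 1 ≤ C * K * L := by
    have h1 : 1 ≤ C * K := one_le_mul_of_one_le_of_one_le hC1 hK1
    exact one_le_mul_of_one_le_of_one_le h1 hL1
  have hpow : (1 : ℝ) ≤ (C * K * L) ^ m := one_le_pow₀ hCKL
  have h6 : (nV) ^ ((k : ℝ) / (k + 1)) ≤ (C * K * L) ^ m * (C * (K * B)) := by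
    have h61 : nV ^ k ≤ ((C * K * L) ^ m * (C * (K * B))) ^ (k + 1) := by
      refine key.trans ?_
      rw [mul_pow ((C * K * L) ^ m) (C * (K * B)) (k + 1)]
      refine mul_le_mul_of_nonneg_right ?_ (by positivity)
      calc (C * K * L) ^ m = ((C * K * L) ^ m) ^ 1 := (pow_one _).symm
        _ ≤ ((C * K * L) ^ m) ^ (k + 1) := pow_le_pow_right₀ hpow (by omega)
    have hsc : (0 : ℝ) ≤ 1 / ((k : ℝ) + 1) := by
      have : (0 : ℝ) ≤ k := Nat.cast_nonneg _
      exact div_nonneg zero_le_one (by linarith)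
    have h7 := Real.rpow_le_rpow (pow_nonneg hnV0 _) h61 hsc
    rw [← Real.rpow_natCast, ← Real.rpow_mul (by positivity), mul_one_div,
      ← Real.rpow_natCast ((C * K * L) ^ m * (C * (K * B))) (k + 1),
      ← Real.rpow_mul (by positivity)] at h7
    have h8 : ((k + 1 : ℕ) : ℝ) * (1 / ((k : ℝ) + 1)) = 1 := by
      push_cast
      field_simp
    rwa [h8, Real.rpow_one] at h7
  rw [hWeq]
  apply ENNReal.ofReal_le_ofReal
  have hKLpos : 0 < (K * L) ^ (m + 1) := by positivity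
  have h9 : (C * K * L) ^ m * (C * (K * B)) ≤ C ^ (m + 1) * (K * L) ^ (m + 1) * B := by
    have e1 : (C * K * L) ^ m * (C * (K * B)) = C ^ (m + 1) * ((K * L) ^ m * K) * B := by
      rw [mul_assoc C K L, mul_pow, pow_succ C]; ring
    rw [e1]
    apply mul_le_mul_of_nonneg_right _ hBnn
    apply mul_le_mul_of_nonneg_left _ (by positivity)
    rw [pow_succ (K * L)]
    apply mul_le_mul_of_nonneg_left _ (by positivity)
    nlinarith
  calc κ * ((K * L) ^ (m + 1))⁻¹ * δ ^ d * nV ^ ((k : ℝ) / (k + 1))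
      ≤ (μ / (4 * C ^ (m + 1) * rc)) * ((K * L) ^ (m + 1))⁻¹ * δ ^ d *
          (C ^ (m + 1) * (K * L) ^ (m + 1) * B) := by
        have h10 : κ ≤ μ / (4 * C ^ (m + 1) * rc) := min_le_right _ _
        have h11 := h6.trans h9
        gcongr
    _ = W := by
      rw [hB]
      field_simp

/-- families of segments in `ℝ × ℝ^d` -/
theorem kak (S : Finset ℚ) (hS : (-1 : ℚ) ∉ S) (hne : S.Nonempty) (d : ℕ) (lam : ℝ)
    (hlam : 0 < lam) :
    ∃ m : ℕ, ∃ κ : ℝ, 0 < κ ∧ ∀ (δ : ℝ), 0 < δ → ∀ (p : (Fin d → ℝ) → Fin d → ℝ)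
      (b : (Fin d → ℝ) → ℝ) (T : Set (ℝ × (Fin d → ℝ))), MeasurableSet T →
      ∀ (K L : ℝ), 1 ≤ K → 1 ≤ L → ∀ Z : Set ℝ, volume Z ≤ ENNReal.ofReal κ →
      (∀ t : ℝ, t ∉ Z → ∃ N : ℝ, 0 ≤ N ∧
        ENNReal.ofReal (N * δ ^ d) ≤ volume (Prod.mk t ⁻¹' T) ∧
        Cov δ K L (K * N) ((fun v => fun i => p v i + t * v i) ''
          {v : Fin d → ℝ | (∀ i, 0 ≤ v i ∧ v i ≤ 1) ∧ t ∈ Set.Icc (b v) (b v + lam)})) →
      ENNReal.ofReal (κ * ((K * L) ^ m)⁻¹ * δ ^ ((d : ℝ) / (S.card + 1))) ≤ volume T := by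
  classical
  obtain ⟨m, η, κ, hη, hκ, hslab⟩ := slab S hS d (lam / 2) (by positivity)
  set θ : ℝ := (S.card : ℝ) / (S.card + 1) with hθ
  have hScard : (0 : ℝ) < S.card := by exact_mod_cast hne.card_pos
  have hθ0 : 0 < θ := by rw [hθ]; positivity
  have hθ1 : θ ≤ 1 := by rw [hθ, div_le_one (by positivity)]; linarith
  refine ⟨m, min κ (κ * (η / 2) ^ ((d : ℝ) * θ)), by positivity, ?_⟩
  intro δ hδ p b T hT K L hK1 hL1 Z hZ hfam
  set μ : ℝ := lam / 2 with hμ
  have hμpos : 0 < μ := by positivity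
  set Lg : ℝ := 2 * δ / η with hLg
  have hLpos : 0 < Lg := by positivity
  set V := grid d Lg with hV
  set j : (Fin d → ℝ) → ℤ := fun v => ⌈b v / μ⌉ with hj
  set J := V.image j with hJ
  have hZκ : volume Z ≤ ENNReal.ofReal κ := hZ.trans (ENNReal.ofReal_le_ofReal (min_le_left _ _))
  have hone : ∀ q ∈ J, ENNReal.ofReal (κ * ((K * L) ^ m)⁻¹ * δ ^ d *
      ((V.filter fun v => j v = q).card : ℝ) ^ θ) ≤
      volume (T ∩ (Set.Ico (q * μ) (q * μ + μ) ×ˢ Set.univ)) := by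
    intro q hq
    obtain ⟨v₀, hv₀, hjv₀⟩ := Finset.mem_image.1 hq
    refine hslab δ hδ (V.filter fun v => j v = q) ⟨v₀, Finset.mem_filter.2 ⟨hv₀, hjv₀⟩⟩ p (q * μ)
      T hT ?_ K L hK1 hL1 Z hZκ ?_
    · intro v hv w hw hne
      exact grid_sep hLpos (Finset.mem_filter.mp hv).1 (Finset.mem_filter.mp hw).1 hne
    · intro t ht htZ
      obtain ⟨N, hN0, hN1, hN2⟩ := hfam t htZ
      refine ⟨N, hN0, hN1, hN2.mono ?_ le_rfl⟩
      rintro _ ⟨v, hv, rfl⟩
      rw [Finset.mem_coe, Finset.mem_filter] at hv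
      refine ⟨v, ⟨fun i => grid_mem hLpos hv.1 i, ?_⟩, rfl⟩
      have h1 : b v / μ ≤ q := by rw [← hv.2]; exact Int.le_ceil _
      have h2 : (q : ℝ) < b v / μ + 1 := by rw [← hv.2]; exact Int.ceil_lt_add_one _
      rw [div_le_iff₀ hμpos] at h1
      have h3 : (q : ℝ) * μ < b v + μ := by
        have := mul_lt_mul_of_pos_right h2 hμpos
        rwa [add_mul, one_mul, div_mul_cancel₀ _ hμpos.ne'] at this
      have hlam' : lam = 2 * μ := by rw [hμ]; ring
      constructor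
      · linarith [ht.1]
      · linarith [ht.2]
  have hdisj : (J : Set ℤ).PairwiseDisjoint fun m : ℤ =>
      T ∩ (Set.Ico ((m : ℝ) * μ) (m * μ + μ) ×ˢ (Set.univ : Set (Fin d → ℝ))) := by
    intro m _ m' _ hmm
    rw [Function.onFun, Set.disjoint_left]
    rintro ⟨t, y⟩ ⟨_, ht, _⟩ ⟨_, ht', _⟩
    apply hmm
    simp only at ht ht'
    have a1 : (m : ℝ) < m' + 1 := by
      by_contra hcon
      push Not at hcon
      have := mul_le_mul_of_nonneg_right hcon hμpos.le
      linarith [ht.1, ht'.2]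
    have a2 : (m' : ℝ) < m + 1 := by
      by_contra hcon
      push Not at hcon
      have := mul_le_mul_of_nonneg_right hcon hμpos.le
      linarith [ht'.1, ht.2]
    have b1 : m < m' + 1 := by exact_mod_cast a1
    have b2 : m' < m + 1 := by exact_mod_cast a2
    omega
  have hsum : ∑ m ∈ J, volume (T ∩ (Set.Ico ((m : ℝ) * μ) (m * μ + μ) ×ˢ Set.univ)) ≤ volume T := by
    rw [← measure_biUnion_finset hdisj fun m _ =>
      hT.inter (measurableSet_Ico.prod MeasurableSet.univ)]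
    exact measure_mono (Set.iUnion₂_subset fun m _ => Set.inter_subset_left)
  refine le_trans ?_ hsum
  refine le_trans ?_ (Finset.sum_le_sum fun q hq => hone q hq)
  rw [← ENNReal.ofReal_sum_of_nonneg fun m _ => by positivity]
  apply ENNReal.ofReal_le_ofReal
  rw [← Finset.mul_sum]
  have hcardsum : ∑ m ∈ J, ((V.filter fun v => j v = m).card : ℝ) = (V.card : ℝ) := by
    have := Finset.card_eq_sum_card_image j V
    rw [this]
    push_cast
    rfl
  have h1 := rpow_sum_le J (fun m => ((V.filter fun v => j v = m).card : ℝ))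
    (fun _ _ => Nat.cast_nonneg _) hθ0 hθ1
  rw [hcardsum] at h1
  have h2 : (η / 2) ^ ((d : ℝ) * θ) * δ ^ (-((d : ℝ) * θ)) ≤ (V.card : ℝ) ^ θ := by
    have h3 := Real.rpow_le_rpow (by positivity) (grid_card (d := d) hLpos) hθ0.le
    refine le_trans (le_of_eq ?_) h3
    rw [← Real.rpow_natCast, ← Real.rpow_mul (by positivity), hLg,
      show (1 / (2 * δ / η)) = (η / 2) * δ⁻¹ by field_simp,
      Real.mul_rpow (by positivity) (by positivity), Real.inv_rpow hδ.le, Real.rpow_neg hδ.le]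
  have h4 : (d : ℝ) / (S.card + 1) = d + -((d : ℝ) * θ) := by
    rw [hθ]
    field_simp
    ring
  calc min κ (κ * (η / 2) ^ ((d : ℝ) * θ)) * ((K * L) ^ m)⁻¹ * δ ^ ((d : ℝ) / (S.card + 1))
      ≤ κ * (η / 2) ^ ((d : ℝ) * θ) * ((K * L) ^ m)⁻¹ * δ ^ ((d : ℝ) / (S.card + 1)) := by
        have := min_le_right κ (κ * (η / 2) ^ ((d : ℝ) * θ))
        gcongr
    _ = κ * ((K * L) ^ m)⁻¹ * δ ^ d * ((η / 2) ^ ((d : ℝ) * θ) * δ ^ (-((d : ℝ) * θ))) := by
        rw [h4, Real.rpow_add hδ, Real.rpow_natCast]; ring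
    _ ≤ κ * ((K * L) ^ m)⁻¹ * δ ^ d * (V.card : ℝ) ^ θ := by gcongr
    _ ≤ _ := by gcongr

end Pool.Agent.H668.Str
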